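import Pool.Agent.helper51.PC.Spec

set_option autoImplicit false

/-! # Row pc:ASA: an element with property NB -/

namespace Pool.Agent.PC

universe u

section

variable {K : Type u} [Field K] {v : K → ℤ}

theorem ASA_v1 (hv : DVal v) : v 1 = 0 := by
  have := hv.mul 1 1 one_ne_zero one_ne_zero
  rw [one_mul] at this
  omega

theorem ASA_neg (hv : DVal v) {x : K} (hx : x ≠ 0) : v (-x) = v x := by
  have h1 := hv.mul (-1) (-1) (neg_ne_zero.2 one_ne_zero) (neg_ne_zero.2 one_ne_zero)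
  rw [neg_mul_neg, one_mul, ASA_v1 hv] at h1
  have h2 := hv.mul (-1) x (neg_ne_zero.2 one_ne_zero) hx
  rw [neg_one_mul] at h2
  omega

theorem ASA_inv (hv : DVal v) {x : K} (hx : x ≠ 0) : v x⁻¹ = - v x := by
  have h1 := hv.mul x x⁻¹ hx (inv_ne_zero hx)
  rw [mul_inv_cancel₀ hx, ASA_v1 hv] at h1
  omega

theorem ASA_div (hv : DVal v) {x y : K} (hx : x ≠ 0) (hy : y ≠ 0) : v (x / y) = v x - v y := by
  rw [div_eq_mul_inv, hv.mul x y⁻¹ hx (inv_ne_zero hy), ASA_inv hv hy]
  ring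

theorem ASA_pow (hv : DVal v) {x : K} (hx : x ≠ 0) (n : ℕ) : v (x ^ n) = n * v x := by
  induction n with
  | zero => rw [pow_zero, ASA_v1 hv]; simp
  | succ n ih => rw [pow_succ, hv.mul _ _ (pow_ne_zero n hx) hx, ih]; push_cast; ring

theorem ASA_zpow (hv : DVal v) {x : K} (hx : x ≠ 0) (n : ℤ) : v (x ^ n) = n * v x := by
  rcases Int.eq_nat_or_neg n with ⟨m, rfl | rfl⟩
  · rw [zpow_natCast, ASA_pow hv hx]
  · rw [zpow_neg, zpow_natCast, ASA_inv hv (pow_ne_zero m hx), ASA_pow hv hx]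
    ring

theorem ASA_lt (hv : DVal v) {x y : K} (hx : x ≠ 0) (hy : y ≠ 0) (h : v x < v y) :
    x + y ≠ 0 ∧ v (x + y) = v x := by
  have h0 : x + y ≠ 0 := by
    intro h0
    have : x = -y := eq_neg_of_add_eq_zero_left h0
    rw [this, ASA_neg hv hy] at h
    exact lt_irrefl _ h
  refine ⟨h0, ?_⟩
  have h1 := hv.add x y hx hy h0
  rw [min_eq_left h.le] at h1
  have h2 := hv.add (x + y) (-y) h0 (neg_ne_zero.2 hy) (by rwa [add_neg_cancel_right])
  rw [add_neg_cancel_right, ASA_neg hv hy] at h2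
  rcases min_le_iff.1 h2 with h3 | h3
  · omega
  · omega

theorem ASA_Gadd (hv : DVal v) {r : ℤ} {x y : K} (hx : Ge v r x) (hy : Ge v r y) : Ge v r (x + y) := by
  by_cases hx0 : x = 0
  · rw [hx0, zero_add]; exact hy
  by_cases hy0 : y = 0
  · rw [hy0, add_zero]; exact hx
  by_cases h0 : x + y = 0
  · exact Or.inl h0
  right
  exact (le_min (hx.resolve_left hx0) (hy.resolve_left hy0)).trans (hv.add x y hx0 hy0 h0)

theorem ASA_Gneg (hv : DVal v) {r : ℤ} {x : K} (hx : Ge v r x) : Ge v r (-x) := by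
  rcases hx with rfl | hx
  · left; exact neg_zero
  by_cases hx0 : x = 0
  · left; rw [hx0, neg_zero]
  right
  rwa [ASA_neg hv hx0]

theorem ASA_Gmul (hv : DVal v) {r r' : ℤ} {x y : K} (hx : Ge v r x) (hy : Ge v r' y) :
    Ge v (r + r') (x * y) := by
  by_cases hx0 : x = 0
  · left; rw [hx0, zero_mul]
  by_cases hy0 : y = 0
  · left; rw [hy0, mul_zero]
  right
  rw [hv.mul x y hx0 hy0]
  exact add_le_add (hx.resolve_left hx0) (hy.resolve_left hy0)

theorem ASA_Gsum (hv : DVal v) {r : ℤ} {ι : Type} (S : Finset ι) (f : ι → K)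
    (h : ∀ i ∈ S, Ge v r (f i)) : Ge v r (∑ i ∈ S, f i) := by
  classical
  induction S using Finset.induction_on with
  | empty => left; rw [Finset.sum_empty]
  | insert a S ha ih =>
    rw [Finset.sum_insert ha]
    exact ASA_Gadd hv (h a (Finset.mem_insert_self a S))
      (ih fun i hi => h i (Finset.mem_insert_of_mem hi))

theorem ASA_Gmono {r r' : ℤ} {x : K} (hx : Ge v r x) (h : r' ≤ r) : Ge v r' x := by
  rcases hx with hx | hx
  · exact Or.inl hx
  · exact Or.inr (h.trans hx)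

/-- the valuation ring -/
def ASA_V (hv : DVal v) : ValuationSubring K where
  carrier := {x | Ge v 0 x}
  mul_mem' := by
    intro x y hx hy
    have := ASA_Gmul hv hx hy
    rwa [add_zero] at this
  one_mem' := Or.inr (by rw [ASA_v1 hv])
  add_mem' := fun hx hy => ASA_Gadd hv hx hy
  zero_mem' := Or.inl rfl
  neg_mem' := fun hx => ASA_Gneg hv hx
  mem_or_inv_mem' := by
    intro x
    by_cases hx : x = 0
    · left; exact Or.inl hx
    rcases le_total 0 (v x) with h | h
    · left; exact Or.inr h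
    · right; right
      rw [ASA_inv hv hx]
      omega

theorem ASA_mem (hv : DVal v) (x : K) : x ∈ ASA_V hv ↔ Ge v 0 x := Iff.rfl

theorem ASA_unit (hv : DVal v) (x : ASA_V hv) : IsUnit x ↔ (x : K) ≠ 0 ∧ v (x : K) = 0 := by
  constructor
  · intro h
    obtain ⟨y, hy⟩ := h.exists_right_inv
    have h1 : (x : K) * (y : K) = 1 := by
      have := congrArg (fun z : ASA_V hv => (z : K)) hy
      exact this
    have hx0 : (x : K) ≠ 0 := by
      intro h2
      rw [h2, zero_mul] at h1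
      exact zero_ne_one h1
    have hy0 : (y : K) ≠ 0 := by
      intro h2
      rw [h2, mul_zero] at h1
      exact zero_ne_one h1
    refine ⟨hx0, ?_⟩
    have h3 := hv.mul _ _ hx0 hy0
    rw [h1, ASA_v1 hv] at h3
    have h4 := ((ASA_mem hv (x : K)).1 x.2).resolve_left hx0
    have h5 := ((ASA_mem hv (y : K)).1 y.2).resolve_left hy0
    omega
  · rintro ⟨h1, h2⟩
    have h3 : (x : K)⁻¹ ∈ ASA_V hv := by
      rw [ASA_mem]
      right
      rw [ASA_inv hv h1, h2]
      simp
    refine IsUnit.of_mul_eq_one ⟨(x : K)⁻¹, h3⟩ ?_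
    apply Subtype.ext
    exact mul_inv_cancel₀ h1

theorem ASA_res (hv : DVal v) (x : ASA_V hv) :
    IsLocalRing.residue (ASA_V hv) x = 0 ↔ Ge v 1 (x : K) := by
  rw [IsLocalRing.residue_eq_zero_iff, IsLocalRing.mem_maximalIdeal, mem_nonunits_iff, ASA_unit]
  constructor
  · intro h
    by_cases h0 : (x : K) = 0
    · exact Or.inl h0
    · right
      have h1 : v (x : K) ≠ 0 := fun h2 => h ⟨h0, h2⟩
      have h2 := ((ASA_mem hv (x : K)).1 x.2).resolve_left h0
      omega
  · rintro h ⟨h1, h2⟩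
    have := h.resolve_left h1
    omega

/-- the residue classes of the fixed elements -/
def ASA_F (hv : DVal v) (s : K →+* K) : Subfield (IsLocalRing.ResidueField (ASA_V hv)) where
  carrier := {z | ∃ y : ASA_V hv, s (y : K) = y ∧ IsLocalRing.residue (ASA_V hv) y = z}
  mul_mem' := by
    rintro _ _ ⟨y, hy, rfl⟩ ⟨z, hz, rfl⟩
    refine ⟨y * z, ?_, map_mul _ y z⟩
    rw [MulMemClass.coe_mul, map_mul, hy, hz]
  one_mem' := ⟨1, by rw [OneMemClass.coe_one, map_one], map_one _⟩
  add_mem' := by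
    rintro _ _ ⟨y, hy, rfl⟩ ⟨z, hz, rfl⟩
    refine ⟨y + z, ?_, map_add _ y z⟩
    rw [AddMemClass.coe_add, map_add, hy, hz]
  zero_mem' := ⟨0, by rw [ZeroMemClass.coe_zero, map_zero], map_zero _⟩
  neg_mem' := by
    rintro _ ⟨y, hy, rfl⟩
    refine ⟨-y, ?_, map_neg _ y⟩
    rw [NegMemClass.coe_neg, map_neg, hy]
  inv_mem' := by
    rintro _ ⟨y, hy, rfl⟩
    by_cases h : IsLocalRing.residue (ASA_V hv) y = 0
    · refine ⟨0, by rw [ZeroMemClass.coe_zero, map_zero], ?_⟩
      rw [h, inv_zero, map_zero]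
    · have h1 : IsUnit y := by
        by_contra h1
        exact h ((IsLocalRing.residue_eq_zero_iff y).2 ((IsLocalRing.mem_maximalIdeal y).2 h1))
      obtain ⟨z, hz⟩ := h1.exists_right_inv
      have h2 : (y : K) * (z : K) = 1 := congrArg (fun z : ASA_V hv => (z : K)) hz
      have h3 : s (z : K) = z := by
        have e1 : (y : K) ≠ 0 := by
          intro h4
          rw [h4, zero_mul] at h2
          exact zero_ne_one h2
        have e2 : (z : K) = (y : K)⁻¹ := (inv_eq_of_mul_eq_one_right h2).symm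
        rw [e2, map_inv₀, hy]
      refine ⟨z, h3, ?_⟩
      symm
      apply inv_eq_of_mul_eq_one_right
      rw [← map_mul, hz, map_one]

theorem ASA_memF (hv : DVal v) (s : K →+* K) (z : IsLocalRing.ResidueField (ASA_V hv)) :
    z ∈ ASA_F hv s ↔ ∃ y : ASA_V hv, s (y : K) = y ∧ IsLocalRing.residue (ASA_V hv) y = z := Iff.rfl

end

theorem ASA_fixp {K : Type u} [Field K] (p : ℕ) [Fact p.Prime] [CharP K p] (s : K →+* K) (A : K)
    (hA : s A = A + 1) : s (A ^ p - A) = A ^ p - A := by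
  rw [map_sub, map_pow, hA, add_pow_char, one_pow]
  ring

/-- first case: the value of `A` is not a value of a fixed element -/
theorem ASA_case1 {K : Type u} [Field K] (p : ℕ) [Fact p.Prime] [CharP K p] (s : K →+* K)
    (v : K → ℤ) (hv : DVal v) (A : K) (hA : s A = A + 1) (hA0 : A ≠ 0) (hvA : v A < 0)
    (hno : ∀ b : K, s b = b → b ≠ 0 → v A ≠ v b)
    (c c' : K) (i j : Fin p) (hij : i ≠ j) (hc : s c = c) (hc' : s c' = c') (hc0 : c ≠ 0) (hc0' : c' ≠ 0)
    (heq : v (c * A ^ (i : ℕ)) = v (c' * A ^ (j : ℕ))) : False := by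
  have hp : p.Prime := Fact.out
  have hp2 : 2 ≤ p := hp.two_le
  rw [hv.mul _ _ hc0 (pow_ne_zero _ hA0), hv.mul _ _ hc0' (pow_ne_zero _ hA0), ASA_pow hv hA0,
    ASA_pow hv hA0] at heq
  have h1 : v (A ^ p) < v (-A) := by
    rw [ASA_pow hv hA0, ASA_neg hv hA0]
    nlinarith
  have h2 := ASA_lt hv (pow_ne_zero p hA0) (neg_ne_zero.2 hA0) h1
  rw [← sub_eq_add_neg, ASA_pow hv hA0] at h2
  obtain ⟨hf0, hvf⟩ := h2
  have hfix := ASA_fixp p s A hA
  have hcop : IsCoprime (p : ℤ) ((i : ℕ) - (j : ℕ) : ℤ) := by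
    rw [Irreducible.coprime_iff_not_dvd (Nat.prime_iff_prime_int.1 hp).irreducible]
    intro hd
    have h3 : |((i : ℕ) : ℤ) - ((j : ℕ) : ℤ)| < p := by
      have hi := i.2
      have hj := j.2
      rw [abs_lt]
      constructor <;> omega
    have h4 := Int.eq_zero_of_abs_lt_dvd hd h3
    apply hij
    apply Fin.ext
    omega
  obtain ⟨x, y, hxy⟩ := hcop
  apply hno ((A ^ p - A) ^ x * (c' / c) ^ y)
  · rw [map_mul, map_zpow₀, map_zpow₀, hfix, map_div₀, hc, hc']
  · exact mul_ne_zero (zpow_ne_zero x hf0) (zpow_ne_zero y (div_ne_zero hc0' hc0))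
  · rw [hv.mul _ _ (zpow_ne_zero x hf0) (zpow_ne_zero y (div_ne_zero hc0' hc0)), ASA_zpow hv hf0,
      ASA_zpow hv (div_ne_zero hc0' hc0), ASA_div hv hc0' hc0, hvf]
    have e1 : v c' - v c = (((i : ℕ) : ℤ) - ((j : ℕ) : ℤ)) * v A := by linarith
    rw [e1]
    calc v A = (x * p + y * (((i : ℕ) : ℤ) - ((j : ℕ) : ℤ))) * v A := by rw [hxy, one_mul]
      _ = _ := by ring

/-- second case: approximation of `t` by a fixed element -/
theorem ASA_case2 (hPIN : PIN_stmt.{u}) {K : Type u} [Field K] (p : ℕ) [Fact p.Prime] [CharP K p]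
    (s : K →+* K) (v : K → ℤ) (hv : DVal v) (t f : K) (ht : Ge v 0 t) (hf : Ge v 0 f) (hsf : s f = f)
    (htf : Ge v 1 (f - t ^ p)) (e : Fin p → K) (he : ∀ i, Ge v 0 (e i)) (hse : ∀ i, s (e i) = e i)
    (j : Fin p) (hj : e j = 1) (hsum : Ge v 1 (∑ i, e i * t ^ (i : ℕ))) :
    ∃ g : K, s g = g ∧ Ge v 1 (t - g) := by
  have hp : p.Prime := Fact.out
  let κ := IsLocalRing.ResidueField (ASA_V hv)
  let res := IsLocalRing.residue (ASA_V hv)
  let κ₀ := ASA_F hv s
  have hV : CharP (ASA_V hv) p :=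
    (ASA_V hv).subtype.charP Subtype.val_injective p
  have hκ : CharP κ p := by
    rw [CharP.charP_iff_prime_eq_zero hp]
    have : ((p : ASA_V hv)) = 0 := CharP.cast_eq_zero _ _
    have h2 := congrArg res this
    rwa [map_natCast, map_zero] at h2
  set T : ASA_V hv := ⟨t, ht⟩ with hT
  set FF : ASA_V hv := ⟨f, hf⟩ with hFF
  set E : Fin p → ASA_V hv := fun i => ⟨e i, he i⟩ with hE
  have hEm : ∀ i, res (E i) ∈ κ₀ := fun i => ⟨E i, hse i, rfl⟩
  have h1 : ∃ y : κ₀, algebraMap κ₀ κ y = (res T) ^ p := by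
    refine ⟨⟨res FF, ⟨FF, hsf, rfl⟩⟩, ?_⟩
    change res FF = (res T) ^ p
    rw [← map_pow, ← sub_eq_zero, ← map_sub]
    exact (ASA_res hv (FF - T ^ p)).2 htf
  have h2 : ∃ P : Polynomial κ₀, P ≠ 0 ∧ P.natDegree < p ∧ Polynomial.aeval (res T) P = 0 := by
    refine ⟨∑ i : Fin p, Polynomial.monomial (i : ℕ) (⟨res (E i), hEm i⟩ : κ₀), ?_, ?_, ?_⟩
    · intro h
      have h3 := congrArg (fun P : Polynomial κ₀ => P.coeff (j : ℕ)) h
      simp only [Polynomial.finsetSum_coeff, Polynomial.coeff_monomial, Polynomial.coeff_zero] at h3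
      rw [Finset.sum_eq_single j] at h3
      · rw [if_pos rfl] at h3
        have h4 : res (E j) = 0 := congrArg (fun x : κ₀ => (x : κ)) h3
        have h5 : E j = 1 := Subtype.ext hj
        rw [h5, map_one] at h4
        exact one_ne_zero h4
      · intro b _ hb
        rw [if_neg (fun h => hb (Fin.ext h))]
      · intro h
        exact absurd (Finset.mem_univ j) h
    · refine lt_of_le_of_lt (Polynomial.natDegree_sum_le_of_forall_le (n := p - 1) _ _ ?_) ?_
      · intro i _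
        refine (Polynomial.natDegree_monomial_le _).trans ?_
        have := i.2
        omega
      · have := hp.pos
        omega
    · rw [map_sum]
      have h3 : ∀ i : Fin p, Polynomial.aeval (res T)
          (Polynomial.monomial (i : ℕ) (⟨res (E i), hEm i⟩ : κ₀)) = res (E i * T ^ (i : ℕ)) := by
        intro i
        rw [Polynomial.aeval_monomial, map_mul, map_pow]
        rfl
      rw [Finset.sum_congr rfl fun i _ => h3 i, ← map_sum]
      apply (ASA_res hv _).2
      have h4 : ((∑ i, E i * T ^ (i : ℕ) : ASA_V hv) : K) = ∑ i, e i * t ^ (i : ℕ) := by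
        rw [← (ASA_V hv).subtype_apply, map_sum]
        rfl
      rw [h4]
      exact hsum
  obtain ⟨⟨y, hy⟩, hy'⟩ := hPIN κ₀ κ p (res T) h1 h2
  obtain ⟨g, hg, hg'⟩ := (ASA_memF hv s y).1 hy
  refine ⟨g, hg, ?_⟩
  have h3 : y = res T := hy'
  rw [← hg', ← sub_eq_zero, ← map_sub] at h3
  have h4 := (ASA_res hv (g - T)).1 h3
  have h5 := ASA_Gneg hv h4
  have h6 : -((g - T : ASA_V hv) : K) = t - g := by
    change -((g : K) - t) = t - g
    ring
  rwa [h6] at h5

theorem ASA (hPIN : PIN_stmt.{u}) : ASA_stmt.{u} := by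
  intro K _ p _ _ s v hv a ha
  have hp : p.Prime := Fact.out
  have hp2 : 2 ≤ p := hp.two_le
  by_cases hcase : ∃ b : K, s b = b ∧ Ge v 0 (a - b)
  · exact Or.inl hcase
  right
  push Not at hcase
  have hneg : ∀ b : K, s b = b → a - b ≠ 0 ∧ v (a - b) < 0 := by
    intro b hb
    have := hcase b hb
    unfold Ge at this
    push Not at this
    exact this
  obtain ⟨M, ⟨b, hb, hbM⟩, hMax⟩ := Int.exists_greatest_of_bdd
    (P := fun z => ∃ b : K, s b = b ∧ v (a - b) = z)
    ⟨0, by rintro z ⟨b, hb, rfl⟩; exact (hneg b hb).2.le⟩ ⟨v (a - 0), 0, map_zero s, rfl⟩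
  obtain ⟨hA0, hvA⟩ := hneg b hb
  refine ⟨b, -M, hb, by omega, hA0, by rw [hbM, neg_neg], ?_⟩
  set A : K := a - b with hAdef
  have hsA : s A = A + 1 := by rw [hAdef, map_sub, ha, hb]; ring
  intro c hc r hr
  by_contra hcon
  push Not at hcon
  obtain ⟨i₀, hi₀⟩ := hcon
  unfold Ge at hi₀
  push Not at hi₀
  have hci₀ : c i₀ ≠ 0 := fun h => hi₀.1 (by rw [h, zero_mul])
  classical
  obtain ⟨j, hj, hjmin⟩ := Finset.exists_min_image (Finset.univ.filter fun i => c i ≠ 0)
    (fun i => v (c i * A ^ (i : ℕ))) ⟨i₀, Finset.mem_filter.2 ⟨Finset.mem_univ _, hci₀⟩⟩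
  have hcj : c j ≠ 0 := (Finset.mem_filter.1 hj).2
  have hjr : v (c j * A ^ (j : ℕ)) < r :=
    lt_of_le_of_lt (hjmin i₀ (Finset.mem_filter.2 ⟨Finset.mem_univ _, hci₀⟩)) hi₀.2
  have hmin : ∀ i, c i ≠ 0 → v (c j * A ^ (j : ℕ)) ≤ v (c i * A ^ (i : ℕ)) := fun i hi =>
    hjmin i (Finset.mem_filter.2 ⟨Finset.mem_univ _, hi⟩)
  by_cases hval : ∃ b' : K, s b' = b' ∧ b' ≠ 0 ∧ v A = v b'
  · obtain ⟨b', hb', hb0', hvb'⟩ := hval
    have hD0 : c j * b' ^ (j : ℕ) ≠ 0 := mul_ne_zero hcj (pow_ne_zero _ hb0')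
    have hvD : v (c j * b' ^ (j : ℕ)) = v (c j * A ^ (j : ℕ)) := by
      rw [hv.mul _ _ hcj (pow_ne_zero _ hb0'), hv.mul _ _ hcj (pow_ne_zero _ hA0), ASA_pow hv hb0',
        ASA_pow hv hA0, hvb']
    have key : ∃ g : K, s g = g ∧ Ge v 1 (A / b' - g) := by
      refine ASA_case2 hPIN p s v hv (A / b') ((A ^ p - A) / b' ^ p) ?_ ?_ ?_ ?_
        (fun i => c i * b' ^ (i : ℕ) / (c j * b' ^ (j : ℕ))) ?_ ?_ j (div_self hD0) ?_
      · right
        rw [ASA_div hv hA0 hb0', hvb', sub_self]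
      · have h1 : (A ^ p - A) / b' ^ p = (A ^ p + -A) / b' ^ p := by rw [sub_eq_add_neg]
        rw [h1]
        have h2 : v (A ^ p) < v (-A) := by
          rw [ASA_pow hv hA0, ASA_neg hv hA0]
          nlinarith
        have h3 := ASA_lt hv (pow_ne_zero p hA0) (neg_ne_zero.2 hA0) h2
        right
        rw [ASA_div hv h3.1 (pow_ne_zero p hb0'), h3.2, ASA_pow hv hA0, ASA_pow hv hb0', hvb', sub_self]
      · rw [map_div₀, ASA_fixp p s A hsA, map_pow, hb']
      · have h1 : (A ^ p - A) / b' ^ p - (A / b') ^ p = -(A / b' ^ p) := by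
          rw [div_pow, ← sub_div]
          ring
        rw [h1]
        apply ASA_Gneg hv
        right
        rw [ASA_div hv hA0 (pow_ne_zero p hb0'), ASA_pow hv hb0', ← hvb']
        nlinarith
      · intro i
        by_cases hi : c i = 0
        · left
          rw [hi, zero_mul, zero_div]
        · right
          have h1 : c i * b' ^ (i : ℕ) ≠ 0 := mul_ne_zero hi (pow_ne_zero _ hb0')
          change 0 ≤ v (c i * b' ^ (i : ℕ) / (c j * b' ^ (j : ℕ)))
          rw [ASA_div hv h1 hD0, hvD]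
          have h2 : v (c i * b' ^ (i : ℕ)) = v (c i * A ^ (i : ℕ)) := by
            rw [hv.mul _ _ hi (pow_ne_zero _ hb0'), hv.mul _ _ hi (pow_ne_zero _ hA0),
              ASA_pow hv hb0', ASA_pow hv hA0, hvb']
          rw [h2]
          have := hmin i hi
          omega
      · intro i
        rw [map_div₀, map_mul, map_mul, map_pow, map_pow, hc, hc, hb']
      · have h1 : ∑ i, c i * b' ^ (i : ℕ) / (c j * b' ^ (j : ℕ)) * (A / b') ^ (i : ℕ) =
            (c j * b' ^ (j : ℕ))⁻¹ * ∑ i, c i * A ^ (i : ℕ) := by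
          rw [Finset.mul_sum]
          refine Finset.sum_congr rfl fun i _ => ?_
          rw [div_pow]
          have := pow_ne_zero (i : ℕ) hb0'
          field_simp
        have h2 : Ge v (-v (c j * b' ^ (j : ℕ))) (c j * b' ^ (j : ℕ))⁻¹ := by
          right
          rw [ASA_inv hv hD0]
        have h3 := ASA_Gmul hv h2 hr
        rw [← h1] at h3
        refine ASA_Gmono h3 ?_
        rw [hvD]
        omega
    obtain ⟨g, hg, hg'⟩ := key
    have h1 : a - (b + b' * g) = b' * (A / b' - g) := by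
      rw [mul_sub, mul_div_cancel₀ _ hb0', hAdef]
      ring
    have hfx : s (b + b' * g) = b + b' * g := by rw [map_add, map_mul, hb, hb', hg]
    have h2 := hneg _ hfx
    have h3 := hMax _ ⟨b + b' * g, hfx, rfl⟩
    have h4 : A / b' - g ≠ 0 := by
      intro h4
      rw [h1, h4, mul_zero] at h2
      exact h2.1 rfl
    rw [h1, hv.mul _ _ hb0' h4] at h3
    have h5 := hg'.resolve_left h4
    omega
  · push Not at hval
    have hno : ∀ b : K, s b = b → b ≠ 0 → v A ≠ v b := fun b' h1 h2 => hval b' h1 h2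
    by_cases hex : ∃ i, i ≠ j ∧ c i ≠ 0 ∧ v (c i * A ^ (i : ℕ)) = v (c j * A ^ (j : ℕ))
    · obtain ⟨i, hij, hci, heq⟩ := hex
      exact ASA_case1 p s v hv A hsA hA0 hvA hno (c i) (c j) i j hij (hc i) (hc j) hci hcj heq
    · push Not at hex
      have h1 : Ge v (v (c j * A ^ (j : ℕ)) + 1) (∑ i ∈ Finset.univ.erase j, c i * A ^ (i : ℕ)) := by
        apply ASA_Gsum hv
        intro i hi
        have hij := Finset.ne_of_mem_erase hi
        by_cases hci : c i = 0
        · left; rw [hci, zero_mul]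
        · right
          have h2 := hmin i hci
          have h3 := hex i hij hci
          omega
      have h2 : Ge v (v (c j * A ^ (j : ℕ)) + 1) (∑ i, c i * A ^ (i : ℕ)) := ASA_Gmono hr (by omega)
      have h3 : c j * A ^ (j : ℕ) = (∑ i, c i * A ^ (i : ℕ)) +
          -(∑ i ∈ Finset.univ.erase j, c i * A ^ (i : ℕ)) := by
        rw [← Finset.add_sum_erase Finset.univ _ (Finset.mem_univ j)]
        ring
      have h4 := ASA_Gadd hv h2 (ASA_Gneg hv h1)
      rw [← h3] at h4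
      have h5 := h4.resolve_left (mul_ne_zero hcj (pow_ne_zero _ hA0))
      omega

end Pool.Agent.PC
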